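import Pool.Agent.H24.UG.T7
import Pool.Agent.H60.AG.LMD

/-!
UNIFORM LOCAL GAP (`MP_c59857_nt`): row ULD, comparison of the errors of two tuples.
-/

set_option autoImplicit false

open MeasureTheory ProbabilityTheory Filter Topology Finset
open scoped Nat ENNReal

namespace Pool.Agent.H40.UG

open Pool.Agent.H24.UG
open Pool.Agent.H24.T2 (Pset)
open Pool.Agent.H67.AG (avgP ul Inv Rt Av SA kap JJ TT InvZ nxt triv tow XN PN TN XX PX TX prX Fac
  Tup dl Dlt Mis bd κ₀ Sw SwE)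
open Pool.Agent.H60.AG (inv_pre avgP_le avgP_add_const avgP_abs)

theorem sgn_abs {σ : ℕ → ℝ} (h : Sgn σ) (p : ℕ) : 0 ≤ |σ p| ∧ |σ p| ≤ 1 := by
  refine ⟨abs_nonneg _, ?_⟩
  rcases h p with h | h | h <;> rw [h] <;> norm_num

theorem pf_ULD (hul : Pool.Agent.H67.AG.T_UL) (_hpn : Pool.Agent.H67.AG.T_PN) : T_ULD := by
  intro Ω _ P _ T k β σ W U y y' A hT hσ hW hU hy hy' hA
  obtain ⟨hAm, hAi⟩ := hA
  set c : ℝ := ∑ i, P.real (A ∩ {ω | y i ω ≠ y' i ω}) with hc
  have hc0 : 0 ≤ c := Finset.sum_nonneg fun i _ => measureReal_nonneg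
  have hkey : ∀ m, ∀ p ∈ Pset W m,
      P.real (A ∩ bd T β (σ p) y p) ≤ P.real (A ∩ bd T β (σ p) y' p) + c := by
    intro m p hp
    have hp' : W ∣ p - 1 := by
      have h2 := (Finset.mem_filter.mp hp).2
      exact (Nat.modEq_iff_dvd' h2.1.one_lt.le).mp h2.2.symm
    have hsub : A ∩ bd T β (σ p) y p ⊆ (A ∩ bd T β (σ p) y' p) ∪
        ⋃ i ∈ (Finset.univ : Finset (Fin k)), T^[(p - 1) * β i] ⁻¹' (A ∩ {ω | y i ω ≠ y' i ω}) := by
      rintro ω ⟨hωA, hω⟩
      by_cases hall : ∀ i, y i (T^[(p - 1) * β i] ω) = y' i (T^[(p - 1) * β i] ω)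
      · left
        refine ⟨hωA, ?_⟩
        unfold bd at hω ⊢
        rw [Set.mem_ofPred_eq] at hω ⊢
        rw [Finset.prod_congr rfl fun i _ => (hall i).symm]
        exact hω
      · right
        push Not at hall
        obtain ⟨i, hi⟩ := hall
        rw [Set.mem_iUnion₂]
        refine ⟨i, Finset.mem_univ i, ?_, hi⟩
        have := inv_pre T W ((p - 1) * β i) A hAi (hp'.mul_right _)
        have h' : ω ∈ T^[(p - 1) * β i] ⁻¹' A := by rw [this]; exact hωA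
        exact h'
    have hms : ∀ i, MeasurableSet (A ∩ {ω | y i ω ≠ y' i ω}) := fun i =>
      hAm.inter (measurableSet_eq_fun (hy.1 i) (hy'.1 i)).compl
    have hpre : ∀ i, P.real (T^[(p - 1) * β i] ⁻¹' (A ∩ {ω | y i ω ≠ y' i ω})) =
        P.real (A ∩ {ω | y i ω ≠ y' i ω}) := fun i =>
      (hT.iterate _).measureReal_preimage (hms i).nullMeasurableSet
    calc P.real (A ∩ bd T β (σ p) y p) ≤ P.real ((A ∩ bd T β (σ p) y' p) ∪
        ⋃ i ∈ (Finset.univ : Finset (Fin k)), T^[(p - 1) * β i] ⁻¹' (A ∩ {ω | y i ω ≠ y' i ω})) :=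
          measureReal_mono hsub (measure_ne_top _ _)
      _ ≤ P.real (A ∩ bd T β (σ p) y' p) +
          P.real (⋃ i ∈ (Finset.univ : Finset (Fin k)),
            T^[(p - 1) * β i] ⁻¹' (A ∩ {ω | y i ω ≠ y' i ω})) := measureReal_union_le _ _
      _ ≤ P.real (A ∩ bd T β (σ p) y' p) +
          ∑ i, P.real (T^[(p - 1) * β i] ⁻¹' (A ∩ {ω | y i ω ≠ y' i ω})) :=
          add_le_add le_rfl (measureReal_biUnion_finset_le _ _)
      _ = P.real (A ∩ bd T β (σ p) y' p) + c := by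
          rw [Finset.sum_congr rfl fun i _ => hpre i]
  have hkey' : ∀ m, ∀ p ∈ Pset W m, |σ p| * P.real (A ∩ bd T β (σ p) y p) ≤
      |σ p| * P.real (A ∩ bd T β (σ p) y' p) + c := by
    intro m p hp
    obtain ⟨h0, h1⟩ := sgn_abs hσ p
    have h2 := mul_le_mul_of_nonneg_left (hkey m p hp) h0
    have h3 : |σ p| * c ≤ 1 * c := mul_le_mul_of_nonneg_right h1 hc0
    rw [mul_add] at h2
    linarith
  obtain ⟨-, h2, h3, -, h5⟩ := hul U
  have hbd : ∀ z : Fin k → Ω → ℝ, ∀ m,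
      |avgP W m fun p => |σ p| * P.real (A ∩ bd T β (σ p) z p)| ≤ 1 := by
    intro z m
    refine avgP_abs W m _ fun p => ?_
    obtain ⟨h0, h1⟩ := sgn_abs hσ p
    rw [abs_of_nonneg (mul_nonneg h0 measureReal_nonneg)]
    exact mul_le_one₀ h1 measureReal_nonneg measureReal_le_one
  have hle := h2 (fun m => avgP W m fun p => |σ p| * P.real (A ∩ bd T β (σ p) y p))
    (fun m => (avgP W m fun p => |σ p| * P.real (A ∩ bd T β (σ p) y' p)) + c)
    ⟨1, hbd y⟩ ⟨1 + c, fun m => (abs_add_le _ _).trans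
      (add_le_add (hbd y' m) (abs_of_nonneg hc0).le)⟩
    (Eventually.of_forall fun m => (avgP_le W m _ _ (hkey' m)).trans (avgP_add_const W m _ c hc0))
  have hadd := h3 (fun m => avgP W m fun p => |σ p| * P.real (A ∩ bd T β (σ p) y' p)) (fun _ => c)
    ⟨1, hbd y'⟩ ⟨c, fun _ => (abs_of_nonneg hc0).le⟩
  rw [h5 c] at hadd
  unfold Lm
  rw [hadd] at hle
  exact hle

end Pool.Agent.H40.UG
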